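import Mathlib

open Real Set

namespace Pool.Agent.Results.MP_08e0ef_gt.TwoCircularIsoptics

/-- The Euclidean plane. -/
abbrev Plane := EuclideanSpace ℝ (Fin 2)

/-- The angle of sight of `S` at `P`: the opening angle of the cone of rays from `P` through the
points of `S`, that is, the largest angle `∠ x P y` with `x, y ∈ S`. -/
noncomputable def sightAngle (S : Set Plane) (P : Plane) : ℝ :=
  sSup {θ : ℝ | ∃ x ∈ S, ∃ y ∈ S, θ = EuclideanGeometry.angle x P y}

/-- The isoptic of `S` at angle `α`: the points outside `S` at which the angle of sight is `α`. -/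
def isoptic (S : Set Plane) (α : ℝ) : Set Plane :=
  {P : Plane | P ∉ S ∧ sightAngle S P = α}

/-- `C` is a circle of positive radius. -/
def IsCircle (C : Set Plane) : Prop := ∃ c : Plane, ∃ R : ℝ, 0 < R ∧ C = Metric.sphere c R

/-- coordinate along the direction `t` -/
noncomputable def X (t : ℝ) (x : Plane) : ℝ := x 0 * cos t + x 1 * sin t
/-- coordinate along the direction `t + π/2` -/
noncomputable def Y (t : ℝ) (x : Plane) : ℝ := x 1 * cos t - x 0 * sin t

lemma X_sub (t : ℝ) (x y : Plane) : X t (x - y) = X t x - X t y := by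
  simp [X]; ring
lemma Y_sub (t : ℝ) (x y : Plane) : Y t (x - y) = Y t x - Y t y := by
  simp [Y]; ring

lemma norm_sq_eq (x : Plane) : ‖x‖ ^ 2 = x 0 ^ 2 + x 1 ^ 2 := by
  rw [EuclideanSpace.norm_sq_eq]; simp [Fin.sum_univ_two]

lemma inner_eq (x y : Plane) : inner ℝ x y = x 0 * y 0 + x 1 * y 1 := by
  simp [PiLp.inner_apply, Fin.sum_univ_two]; ring

lemma XY_sq (t : ℝ) (x : Plane) : X t x ^ 2 + Y t x ^ 2 = ‖x‖ ^ 2 := by
  rw [norm_sq_eq, X, Y]
  have := Real.sin_sq_add_cos_sq t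
  linear_combination (x 0 ^ 2 + x 1 ^ 2) * this

lemma X_add (t b : ℝ) (x : Plane) : X (t + b) x = X t x * cos b + Y t x * sin b := by
  simp only [X, Y, Real.cos_add, Real.sin_add]; ring

lemma Y_add (t b : ℝ) (x : Plane) : Y (t + b) x = Y t x * cos b - X t x * sin b := by
  simp only [X, Y, Real.cos_add, Real.sin_add]; ring

lemma eq_of_XY (t : ℝ) {x y : Plane} (h1 : X t x = X t y) (h2 : Y t x = Y t y) : x = y := by
  have h : ‖x - y‖ ^ 2 = 0 := by
    rw [← XY_sq t, X_sub, Y_sub, h1, h2]; ring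
  have : ‖x - y‖ = 0 := by simpa using h
  exact sub_eq_zero.mp (norm_eq_zero.mp this)

/-- polar coordinates with the angle in a prescribed half-open interval -/
lemma polar (z : Plane) (t : ℝ) :
    ∃ s ∈ Ico t (t + 2 * π), z 0 = ‖z‖ * cos s ∧ z 1 = ‖z‖ * sin s := by
  have hn : ‖z‖ = ‖(⟨z 0, z 1⟩ : ℂ)‖ := by
    have h1 : ‖z‖ ^ 2 = ‖(⟨z 0, z 1⟩ : ℂ)‖ ^ 2 := by
      rw [norm_sq_eq, ← Complex.normSq_eq_norm_sq, Complex.normSq_mk]; ring
    exact (pow_left_inj₀ (norm_nonneg _) (norm_nonneg _) two_ne_zero).mp h1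
  set a := Complex.arg (⟨z 0, z 1⟩ : ℂ) with ha
  have hc : z 0 = ‖z‖ * cos a := by
    rw [hn]; exact (Complex.norm_mul_cos_arg (⟨z 0, z 1⟩ : ℂ)).symm
  have hs : z 1 = ‖z‖ * sin a := by
    rw [hn]; exact (Complex.norm_mul_sin_arg (⟨z 0, z 1⟩ : ℂ)).symm
  refine ⟨toIcoMod Real.two_pi_pos t a, toIcoMod_mem_Ico _ _ _, ?_, ?_⟩
  · rw [toIcoMod, zsmul_eq_mul, Real.cos_sub_int_mul_two_pi]; exact hc
  · rw [toIcoMod, zsmul_eq_mul, Real.sin_sub_int_mul_two_pi]; exact hs

/-- the key bound: two vectors of the cone enclose an angle at most `π - β`. -/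
lemma inner_ge {t β : ℝ} (hβ : β ∈ Ioo 0 π) {z w : Plane} (hz1 : X t z ≤ 0) (hz2 : X (t + β) z ≤ 0)
    (hw1 : X t w ≤ 0) (hw2 : X (t + β) w ≤ 0) :
    cos (π - β) * (‖z‖ * ‖w‖) ≤ inner ℝ z w := by
  obtain ⟨hβ0, hβ1⟩ := hβ
  rcases eq_or_ne z 0 with rfl | hz0
  · simp
  rcases eq_or_ne w 0 with rfl | hw0
  · simp
  have key : ∀ z : Plane, z ≠ 0 → X t z ≤ 0 → X (t + β) z ≤ 0 →
      ∃ s ∈ Icc (t + β + π / 2) (t + 3 * π / 2), z 0 = ‖z‖ * cos s ∧ z 1 = ‖z‖ * sin s := by
    intro z hz h1 h2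
    obtain ⟨s, ⟨hs1, hs2⟩, hc, hs⟩ := polar z t
    have hpos : 0 < ‖z‖ := norm_pos_iff.mpr hz
    have e1 : X t z = ‖z‖ * cos (s - t) := by
      rw [X, hc, hs, Real.cos_sub]; ring
    have e2 : X (t + β) z = ‖z‖ * cos (s - (t + β)) := by
      rw [X, hc, hs, Real.cos_sub]; ring
    have c1 : cos (s - t) ≤ 0 := by
      rw [e1] at h1; by_contra h; rw [not_le] at h; nlinarith
    have c2 : cos (s - (t + β)) ≤ 0 := by
      rw [e2] at h2; by_contra h; rw [not_le] at h; nlinarith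
    have b1 : s - t ≤ 3 * π / 2 := by
      by_contra h; rw [not_le] at h
      have : 0 < cos (s - t - 2 * π) := Real.cos_pos_of_mem_Ioo ⟨by linarith, by linarith⟩
      rw [Real.cos_sub_two_pi] at this; linarith
    have b2 : π / 2 ≤ s - t := by
      by_contra h; rw [not_le] at h
      have : 0 < cos (s - t) := Real.cos_pos_of_mem_Ioo ⟨by linarith, by linarith⟩
      linarith
    have b3 : π / 2 ≤ s - (t + β) := by
      by_contra h; rw [not_le] at h
      have : 0 < cos (s - (t + β)) := Real.cos_pos_of_mem_Ioo ⟨by linarith, by linarith⟩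
      linarith
    exact ⟨s, ⟨by linarith, by linarith⟩, hc, hs⟩
  obtain ⟨s, ⟨hs1, hs2⟩, hc, hs⟩ := key z hz0 hz1 hz2
  obtain ⟨r, ⟨hr1, hr2⟩, hc', hs'⟩ := key w hw0 hw1 hw2
  have e : inner ℝ z w = ‖z‖ * ‖w‖ * cos (s - r) := by
    rw [inner_eq]
    conv_lhs => rw [hc, hs, hc', hs']
    rw [Real.cos_sub]; ring
  rw [e]
  have : cos (π - β) ≤ cos (s - r) := by
    rw [← Real.cos_abs (s - r)]
    apply Real.cos_le_cos_of_nonneg_of_le_pi (abs_nonneg _) (by linarith)
    rw [abs_le]; constructor <;> linarith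
  have h0 : 0 ≤ ‖z‖ * ‖w‖ := by positivity
  nlinarith


/-- Two supporting lines through `P`, with outer normals at directions `t` and `t + β`, make the
angle of sight `π - β`. -/
lemma sight_eq {S : Set Plane} {P : Plane} (hP : P ∉ S) {t β : ℝ} (hβ : β ∈ Ioo 0 π)
    (h1 : ∀ x ∈ S, X t x ≤ X t P) (h1' : ∃ x ∈ S, X t x = X t P)
    (h2 : ∀ x ∈ S, X (t + β) x ≤ X (t + β) P) (h2' : ∃ x ∈ S, X (t + β) x = X (t + β) P) :
    sightAngle S P = π - β := by
  have hsin : 0 < sin β := Real.sin_pos_of_mem_Ioo hβ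
  have hne : ∀ x ∈ S, x - P ≠ 0 := fun x hx h => hP (by rwa [sub_eq_zero.mp h] at hx)
  apply IsGreatest.csSup_eq
  constructor
  · obtain ⟨x, hx, ex⟩ := h1'
    obtain ⟨y, hy, ey⟩ := h2'
    refine ⟨x, hx, y, hy, ?_⟩
    -- `x - P` is a negative multiple of the unit vector at `t + π/2`
    have ex0 : X t (x - P) = 0 := by rw [X_sub, ex, sub_self]
    have ey0 : X (t + β) (y - P) = 0 := by rw [X_sub, ey, sub_self]
    have hx2 : X (t + β) (x - P) ≤ 0 := by rw [X_sub]; linarith [h2 x hx]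
    have hy1 : X t (y - P) ≤ 0 := by rw [X_sub]; linarith [h1 y hy]
    have hYx : Y t (x - P) ≤ 0 := by
      rw [X_add, ex0] at hx2
      by_contra h; rw [not_le] at h; nlinarith
    have hYx2 : Y t (x - P) = - ‖x - P‖ := by
      have := XY_sq t (x - P)
      rw [ex0] at this
      nlinarith [norm_nonneg (x - P), abs_nonneg (Y t (x - P)), abs_of_nonpos hYx,
        (sq_eq_sq_iff_abs_eq_abs (Y t (x-P)) ‖x - P‖).mp (by linarith), abs_norm (x - P)]
    have hYy : 0 ≤ Y (t + β) (y - P) := by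
      have e : X t (y - P) = X (t + β) (y - P) * cos β - Y (t + β) (y - P) * sin β := by
        have := X_add (t + β) (-β) (y - P)
        rw [show t + β + -β = t by ring, Real.cos_neg, Real.sin_neg] at this
        rw [this]; ring
      rw [e, ey0] at hy1
      by_contra h; rw [not_le] at h; nlinarith
    have hYy2 : Y (t + β) (y - P) = ‖y - P‖ := by
      have := XY_sq (t + β) (y - P)
      rw [ey0] at this
      nlinarith [norm_nonneg (y - P), abs_of_nonneg hYy,
        (sq_eq_sq_iff_abs_eq_abs (Y (t + β) (y-P)) ‖y - P‖).mp (by linarith), abs_norm (y - P)]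
    have px : 0 < ‖x - P‖ := norm_pos_iff.mpr (hne x hx)
    have py : 0 < ‖y - P‖ := norm_pos_iff.mpr (hne y hy)
    have inn : inner ℝ (x - P) (y - P) = ‖x - P‖ * ‖y - P‖ * cos (π - β) := by
      have g1 : inner ℝ (x - P) (y - P) = X t (x - P) * X t (y - P) + Y t (x - P) * Y t (y - P) := by
        rw [inner_eq, X, X, Y, Y]
        have := Real.sin_sq_add_cos_sq t
        linear_combination (-((x - P) 0 * (y - P) 0 + (x - P) 1 * (y - P) 1)) * this
      have g2 : Y t (y - P) = Y (t + β) (y - P) * cos β + X (t + β) (y - P) * sin β := by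
        have := Y_add (t + β) (-β) (y - P)
        rw [show t + β + -β = t by ring, Real.cos_neg, Real.sin_neg] at this
        rw [this]; ring
      rw [g1, ex0, hYx2, g2, hYy2, ey0, Real.cos_pi_sub]; ring
    rw [EuclideanGeometry.angle, InnerProductGeometry.angle]
    simp only [vsub_eq_sub]
    rw [inn, mul_div_cancel_left₀ _ (by positivity), Real.arccos_cos (by linarith [hβ.2])
      (by linarith [hβ.1])]
  · rintro θ ⟨x, hx, y, hy, rfl⟩
    rw [EuclideanGeometry.angle, InnerProductGeometry.angle]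
    simp only [vsub_eq_sub]
    have px : 0 < ‖x - P‖ := norm_pos_iff.mpr (hne x hx)
    have py : 0 < ‖y - P‖ := norm_pos_iff.mpr (hne y hy)
    rw [show π - β = arccos (cos (π - β)) by
      rw [Real.arccos_cos (by linarith [hβ.2]) (by linarith [hβ.1])]]
    apply Real.arccos_le_arccos
    rw [le_div_iff₀ (by positivity)]
    apply inner_ge hβ
    · rw [X_sub]; linarith [h1 x hx]
    · rw [X_sub]; linarith [h2 x hx]
    · rw [X_sub]; linarith [h1 y hy]
    · rw [X_sub]; linarith [h2 y hy]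


/-- support function -/
noncomputable def h (S : Set Plane) (t : ℝ) : ℝ := sSup (X t '' S)

lemma X_cont (t : ℝ) : Continuous (X t) := by
  unfold X; fun_prop

lemma X_cont2 : Continuous (fun p : ℝ × Plane => X p.1 p.2) := by
  unfold X; fun_prop

lemma Y_cont2 : Continuous (fun p : ℝ × Plane => Y p.1 p.2) := by
  unfold Y; fun_prop

section supp
variable {S : Set Plane} (hc : IsCompact S) (hne : S.Nonempty)
include hc

lemma X_le_h {x : Plane} (hx : x ∈ S) (t : ℝ) : X t x ≤ h S t :=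
  le_csSup (hc.image (X_cont t)).bddAbove ⟨x, hx, rfl⟩

include hne in
lemma exists_h (t : ℝ) : ∃ x ∈ S, X t x = h S t := by
  obtain ⟨x, hx, e⟩ := (hc.image (X_cont t)).sSup_mem (hne.image _)
  exact ⟨x, hx, e⟩

lemma h_cont : Continuous (h S) :=
  hc.continuous_sSup X_cont2

omit hc in
lemma X_per (t : ℝ) (x : Plane) : X (t + 2 * π) x = X t x := by
  simp [X]

omit hc in
lemma h_per (t : ℝ) : h S (t + 2 * π) = h S t := by
  have : X (t + 2 * π) = X t := funext (X_per t)
  rw [h, this, h]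

end supp

/-- intersection of the supporting lines at directions `t` and `t + β` -/
noncomputable def pt (S : Set Plane) (β t : ℝ) : Plane :=
  !₂[h S t * cos t - (h S (t + β) - h S t * cos β) / sin β * sin t,
    h S t * sin t + (h S (t + β) - h S t * cos β) / sin β * cos t]

lemma X_pt (S : Set Plane) (β t : ℝ) : X t (pt S β t) = h S t := by
  simp only [X, pt, PiLp.toLp_apply, Matrix.cons_val_zero, Matrix.cons_val_one]
  have := Real.sin_sq_add_cos_sq t
  linear_combination (h S t) * this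

lemma Y_pt (S : Set Plane) (β t : ℝ) : Y t (pt S β t) = (h S (t + β) - h S t * cos β) / sin β := by
  simp only [Y, pt, PiLp.toLp_apply, Matrix.cons_val_zero, Matrix.cons_val_one]
  have := Real.sin_sq_add_cos_sq t
  linear_combination ((h S (t + β) - h S t * cos β) / sin β) * this

lemma X_pt' (S : Set Plane) {β : ℝ} (hβ : β ∈ Ioo 0 π) (t : ℝ) :
    X (t + β) (pt S β t) = h S (t + β) := by
  have hsin : sin β ≠ 0 := (Real.sin_pos_of_mem_Ioo hβ).ne'
  rw [X_add, X_pt, Y_pt]; field_simp; ring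

lemma pt_cont {S : Set Plane} (hc : IsCompact S) (β : ℝ) : Continuous (pt S β) := by
  have := h_cont hc
  unfold pt
  refine (PiLp.continuous_toLp 2 _).comp ?_
  refine continuous_pi fun i => ?_
  fin_cases i
  · simp only [Fin.zero_eta, Matrix.cons_val_zero]
    fun_prop
  · simp only [Fin.mk_one, Matrix.cons_val_one]
    fun_prop

lemma pt_sight {S : Set Plane} (hc : IsCompact S) (hne : S.Nonempty) {β : ℝ} (hβ : β ∈ Ioo 0 π)
    (t : ℝ) (hp : pt S β t ∉ S) : sightAngle S (pt S β t) = π - β := by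
  apply sight_eq hp hβ (t := t)
  · intro x hx; rw [X_pt]; exact X_le_h hc hx t
  · rw [X_pt]; exact exists_h hc hne t
  · intro x hx; rw [X_pt' S hβ]; exact X_le_h hc hx _
  · rw [X_pt' S hβ]; exact exists_h hc hne _

/-- a point is determined by its coordinates in two independent directions -/
lemma eq_of_two {s r : ℝ} {v w : Plane} (h1 : X s v = X s w) (h2 : X r v = X r w)
    (hd : sin (r - s) ≠ 0) : v = w := by
  apply eq_of_XY s h1
  have e : ∀ x : Plane, X r x = X s x * cos (r - s) + Y s x * sin (r - s) := by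
    intro x; have := X_add s (r - s) x; rwa [show s + (r - s) = r by ring] at this
  rw [e v, e w, h1] at h2
  have : Y s v * sin (r - s) = Y s w * sin (r - s) := by linarith
  exact mul_right_cancel₀ hd this

lemma X_pi (s : ℝ) (x : Plane) : X (s + π) x = - X s x := by
  simp [X]; ring

/-- if `v` lies on the supporting lines at `t` and `t + β`, it lies on those in between -/
lemma between {S : Set Plane} (hc : IsCompact S) (hne : S.Nonempty) {β : ℝ} (hβ : β ∈ Ioo 0 π)
    {t s : ℝ} {v : Plane} (hv : v ∈ S) (h1 : X t v = h S t) (h2 : X (t + β) v = h S (t + β))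
    (hs : s ∈ Icc t (t + β)) : X s v = h S s := by
  obtain ⟨x, hx, ex⟩ := exists_h hc hne s
  have hsin : 0 < sin β := Real.sin_pos_of_mem_Ioo hβ
  have key : ∀ y : Plane, sin β * X s y = sin (t + β - s) * X t y + sin (s - t) * X (t + β) y := by
    intro y
    have e1 := X_add t (s - t) y
    rw [show t + (s - t) = s by ring] at e1
    have e2 := X_add t β y
    rw [e1, e2, show t + β - s = β - (s - t) by ring, Real.sin_sub β (s - t)]; ring
  have p1 : 0 ≤ sin (t + β - s) := by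
    apply Real.sin_nonneg_of_nonneg_of_le_pi <;> linarith [hs.1, hs.2, hβ.2, hβ.1]
  have p2 : 0 ≤ sin (s - t) := by
    apply Real.sin_nonneg_of_nonneg_of_le_pi <;> linarith [hs.1, hs.2, hβ.2, hβ.1]
  have l1 := X_le_h hc hx t
  have l2 := X_le_h hc hx (t + β)
  have kx := key x
  have kv := key v
  apply le_antisymm (X_le_h hc hv s)
  rw [← ex]
  rw [← h1] at l1; rw [← h2] at l2
  have : sin β * X s x ≤ sin β * X s v := by
    rw [kx, kv]
    have := mul_le_mul_of_nonneg_left l1 p1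
    have := mul_le_mul_of_nonneg_left l2 p2
    linarith
  exact le_of_mul_le_mul_left this hsin

/-- two nearby corner points coincide -/
lemma pt_eq_pt {S : Set Plane} (hc : IsCompact S) (hne : S.Nonempty) {β : ℝ} (hβ : β ∈ Ioo 0 π)
    {s r : ℝ} (hs : pt S β s ∈ S) (hr : pt S β r ∈ S) (hsr : |s - r| < β) :
    pt S β s = pt S β r := by
  wlog hle : s ≤ r generalizing s r
  · exact (this hr hs (by rwa [abs_sub_comm]) (le_of_not_ge hle)).symm
  have hlt : r - s < β := by rw [abs_sub_comm, abs_of_nonneg (by linarith)] at hsr; exact hsr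
  have a1 : X r (pt S β s) = h S r :=
    between hc hne hβ hs (X_pt S β s) (X_pt' S hβ s) ⟨hle, by linarith⟩
  have a2 : X (s + β) (pt S β r) = h S (s + β) :=
    between hc hne hβ hr (X_pt S β r) (X_pt' S hβ r) ⟨by linarith, by linarith⟩
  apply eq_of_two (s := r) (r := s + β)
  · rw [a1, X_pt]
  · rw [a2, X_pt' S hβ]
  · apply (Real.sin_pos_of_mem_Ioo ⟨by linarith, by linarith [hβ.2]⟩).ne'

lemma subsingleton_of {S : Set Plane} (hc : IsCompact S) {s r : ℝ} {v : Plane}
    (h1 : X s v = h S s) (h1' : X (s + π) v = h S (s + π)) (h2 : X r v = h S r)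
    (h2' : X (r + π) v = h S (r + π)) (hd : sin (r - s) ≠ 0) : S.Subsingleton := by
  have key : ∀ x ∈ S, x = v := by
    intro x hx
    apply eq_of_two (s := s) (r := r) _ _ hd
    · have a := X_le_h hc hx s
      have b := X_le_h hc hx (s + π)
      rw [← h1] at a; rw [← h1', X_pi, X_pi] at b; linarith
    · have a := X_le_h hc hx r
      have b := X_le_h hc hx (r + π)
      rw [← h2] at a; rw [← h2', X_pi, X_pi] at b; linarith
  intro x hx y hy; rw [key x hx, key y hy]


section circle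
variable {S : Set Plane} (hc : IsCompact S) (hne : S.Nonempty) (hns : ¬ S.Subsingleton)
  {β : ℝ} (hβ : β ∈ Ioo 0 π) {c : Plane} {R : ℝ} (hR : 0 < R)
  (hsub : isoptic S (π - β) ⊆ Metric.sphere c R)
include hc hne hns hβ hsub

omit hns in
lemma mem_of_not {t : ℝ} (ht : pt S β t ∉ Metric.sphere c R) : pt S β t ∈ S := by
  by_contra hp
  exact ht (hsub ⟨hp, pt_sight hc hne hβ t hp⟩)

lemma pt_mem_sphere (t : ℝ) : pt S β t ∈ Metric.sphere c R := by
  set U : Set ℝ := {t | pt S β t ∉ Metric.sphere c R} with hU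
  have hcont := pt_cont hc β
  have hUo : IsOpen U := by
    have : U = (pt S β) ⁻¹' (Metric.sphere c R)ᶜ := rfl
    rw [this]; exact Metric.isClosed_sphere.isOpen_compl.preimage hcont
  have hUc : IsClosed U := by
    apply isClosed_of_closure_subset
    intro t ht
    have hβ2 : 0 < β / 2 := by linarith [hβ.1]
    obtain ⟨t1, ht1, hd1⟩ := Metric.mem_closure_iff.mp ht (β / 2) hβ2
    have hcl : IsClosed {s : ℝ | pt S β s = pt S β t1} := isClosed_eq hcont continuous_const
    have hmem : t ∈ closure (U ∩ Metric.ball t (β / 2)) := by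
      rw [Metric.mem_closure_iff] at ht ⊢
      intro ε hε
      obtain ⟨s, hs, hd⟩ := ht (min ε (β / 2)) (lt_min hε hβ2)
      refine ⟨s, ⟨hs, ?_⟩, lt_of_lt_of_le hd (min_le_left _ _)⟩
      rw [Metric.mem_ball, dist_comm]; exact lt_of_lt_of_le hd (min_le_right _ _)
    have hsubs : U ∩ Metric.ball t (β / 2) ⊆ {s : ℝ | pt S β s = pt S β t1} := by
      rintro s ⟨hs, hs2⟩
      apply pt_eq_pt hc hne hβ (mem_of_not hc hne hβ hsub hs) (mem_of_not hc hne hβ hsub ht1)
      rw [Metric.mem_ball, Real.dist_eq] at hs2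
      rw [Real.dist_eq] at hd1
      calc |s - t1| = |(s - t) + (t - t1)| := by ring_nf
        _ ≤ |s - t| + |t - t1| := abs_add_le _ _
        _ < β := by linarith
    have : pt S β t = pt S β t1 := (closure_minimal hsubs hcl) hmem
    change pt S β t ∉ Metric.sphere c R
    rw [this]; exact ht1
  rcases isClopen_iff.mp ⟨hUc, hUo⟩ with h | h
  · by_contra ht
    have : t ∈ U := ht
    rw [h] at this; exact this
  · exfalso
    have hall : ∀ s, pt S β s ∈ S := by
      intro s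
      have : s ∈ U := by rw [h]; trivial
      exact mem_of_not hc hne hβ hsub this
    have hconst : ∀ s, pt S β s = pt S β 0 := by
      set V : Set ℝ := {s | pt S β s = pt S β 0} with hV
      have hVc : IsClosed V := isClosed_eq hcont continuous_const
      have hVo : IsOpen V := by
        rw [Metric.isOpen_iff]
        intro s hs
        refine ⟨β, hβ.1, ?_⟩
        intro r hr
        rw [Metric.mem_ball, Real.dist_eq] at hr
        change pt S β r = pt S β 0
        rw [pt_eq_pt hc hne hβ (hall r) (hall s) hr]; exact hs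
      rcases isClopen_iff.mp ⟨hVc, hVo⟩ with h | h
      · exfalso
        have : (0 : ℝ) ∈ V := rfl
        rw [h] at this; exact this
      · intro s
        have : s ∈ V := by rw [h]; trivial
        exact this
    apply hns
    apply subsingleton_of hc (s := 0) (r := π / 2) (v := pt S β 0)
    · exact X_pt S β 0
    · rw [← hconst (0 + π)]; exact X_pt S β _
    · rw [← hconst (π / 2)]; exact X_pt S β _
    · rw [← hconst (π / 2 + π)]; exact X_pt S β _
    · simp

/-- the second coordinate, relative to the centre, is non-negative and changes sign at the other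
end of the chord -/
lemma q_spec (τ : ℝ) : 0 ≤ Y τ (pt S β τ - c) ∧ Y τ (pt S β (τ - β) - c) = - Y τ (pt S β τ - c) := by
  have hcont := pt_cont hc β
  have hsin : 0 < sin β := Real.sin_pos_of_mem_Ioo hβ
  have hsph := pt_mem_sphere hc hne hns hβ hsub
  have nrm : ∀ t, ‖pt S β t - c‖ = R := by
    intro t; have := hsph t; rwa [Metric.mem_sphere, dist_eq_norm] at this
  have hX1 : ∀ t, X t (pt S β (t - β)) = h S t := by
    intro t; have := X_pt' S hβ (t - β); rwa [sub_add_cancel] at this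
  -- contact point
  have contact : ∀ t, ∃ x ∈ S, X t x = h S t ∧ Y t (pt S β (t - β)) ≤ Y t x ∧
      Y t x ≤ Y t (pt S β t) := by
    intro t
    obtain ⟨x, hx, ex⟩ := exists_h hc hne t
    refine ⟨x, hx, ex, ?_, ?_⟩
    · have l := X_le_h hc hx (t - β)
      rw [← X_pt S β (t - β)] at l
      have e : ∀ y : Plane, X (t - β) y = X t y * cos β - Y t y * sin β := by
        intro y; have := X_add t (-β) y
        rw [show t + -β = t - β by ring, Real.cos_neg, Real.sin_neg] at this; rw [this]; ring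
      rw [e, e, ex, hX1] at l
      have : Y t (pt S β (t - β)) * sin β ≤ Y t x * sin β := by linarith
      exact le_of_mul_le_mul_right this hsin
    · have l := X_le_h hc hx (t + β)
      rw [← X_pt' S hβ t, X_add, X_add, ex, X_pt] at l
      have : Y t x * sin β ≤ Y t (pt S β t) * sin β := by linarith
      exact le_of_mul_le_mul_right this hsin
  have sq_eq : ∀ t, Y t (pt S β (t - β) - c) ^ 2 = Y t (pt S β t - c) ^ 2 := by
    intro t
    have a := XY_sq t (pt S β (t - β) - c)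
    have b := XY_sq t (pt S β t - c)
    rw [nrm, X_sub, hX1] at a
    rw [nrm, X_sub, X_pt] at b
    linarith
  have le_q : ∀ t, Y t (pt S β (t - β) - c) ≤ Y t (pt S β t - c) := by
    intro t
    obtain ⟨x, -, -, h1, h2⟩ := contact t
    rw [Y_sub, Y_sub]; linarith
  -- dichotomy
  have dich : ∀ t, Y t (pt S β (t - β) - c) = Y t (pt S β t - c) →
      pt S β (t - β) = pt S β t ∧ pt S β t ∈ S := by
    intro t e
    have e2 : pt S β (t - β) = pt S β t := by
      apply eq_of_XY t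
      · rw [hX1, X_pt]
      · rw [Y_sub, Y_sub] at e; linarith
    refine ⟨e2, ?_⟩
    obtain ⟨x, hx, ex, h1, h2⟩ := contact t
    rw [e2] at h1
    have : x = pt S β t := by
      apply eq_of_XY t
      · rw [ex, X_pt]
      · linarith
    rwa [← this]
  by_contra hcon
  have hq : Y τ (pt S β (τ - β) - c) = Y τ (pt S β τ - c) := by
    rcases sq_eq_sq_iff_eq_or_eq_neg.mp (sq_eq τ) with e | e
    · exact e
    · exfalso; apply hcon
      refine ⟨?_, e⟩
      have := le_q τ; rw [e] at this; linarith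
  have hq0 : Y τ (pt S β τ - c) ≠ 0 := by
    intro e; apply hcon; rw [hq, e]; simp
  obtain ⟨hvv, hvS⟩ := dich τ hq
  set v := pt S β τ with hv
  obtain ⟨φ, ⟨hφ1, hφ2⟩, hcφ, hsφ⟩ := polar (v - c) τ
  rw [nrm τ] at hcφ hsφ
  have gX : ∀ t, Y t (v - c) = R * sin (φ - t) := by
    intro t; rw [Y, hcφ, hsφ, Real.sin_sub]; ring
  have hsin0 : sin (φ - τ) ≠ 0 := by
    intro e; apply hq0; rw [gX, e, mul_zero]
  have hR0 : R ≠ 0 := by
    intro e; apply hq0; rw [gX, e, zero_mul]
  -- an interval of length `π` around `τ` on which the sine does not vanish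
  obtain ⟨z, hz, hzn⟩ : ∃ z, τ ∈ Ioo z (z + π) ∧ ∀ t ∈ Ioo z (z + π), sin (φ - t) ≠ 0 := by
    rcases lt_or_ge (φ - τ) π with hlt | hge
    · refine ⟨φ - π, ⟨by linarith, ?_⟩, ?_⟩
      · rcases eq_or_lt_of_le hφ1 with e | e
        · exfalso; apply hsin0; rw [← e]; simp
        · linarith
      · intro t ht
        exact (Real.sin_pos_of_mem_Ioo ⟨by linarith [ht.2], by linarith [ht.1]⟩).ne'
    · refine ⟨φ - 2 * π, ⟨by linarith, ?_⟩, ?_⟩
      · rcases eq_or_lt_of_le hge with e | e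
        · exfalso; apply hsin0; rw [← e]; simp
        · linarith
      · intro t ht
        have : 0 < sin (φ - t - π) :=
          Real.sin_pos_of_mem_Ioo ⟨by linarith [ht.2], by linarith [ht.1]⟩
        rw [Real.sin_sub_pi] at this
        intro e; rw [e] at this; simp at this
  set u : Set ℝ := {t | t ∈ Ioo z (z + π) ∧ pt S β t = v ∧ pt S β (t - β) = v} with hu
  have hcl : IsClosed {t : ℝ | pt S β t = v ∧ pt S β (t - β) = v} :=
    (isClosed_eq hcont continuous_const).inter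
      (isClosed_eq (hcont.comp (continuous_id.sub continuous_const)) continuous_const)
  have huo : IsOpen u := by
    rw [isOpen_iff_mem_nhds]
    rintro t ⟨htI, ht1, ht2⟩
    have n1 : ∀ᶠ s in nhds t, s ∈ Ioo z (z + π) := isOpen_Ioo.mem_nhds htI
    have n2 : ∀ᶠ s in nhds t, |s - t| < β := by
      have := Metric.ball_mem_nhds t hβ.1
      filter_upwards [this] with s hs
      rwa [Metric.mem_ball, Real.dist_eq] at hs
    have hg : Continuous (fun s : ℝ => Y s (pt S β s - c) + Y s (pt S β (s - β) - c)) := by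
      have k1 : Continuous (fun s : ℝ => Y s (pt S β s - c)) :=
        Y_cont2.comp (continuous_id.prodMk (hcont.sub continuous_const))
      have k2 : Continuous (fun s : ℝ => Y s (pt S β (s - β) - c)) :=
        Y_cont2.comp (continuous_id.prodMk
          ((hcont.comp (continuous_id.sub continuous_const)).sub continuous_const))
      exact k1.add k2
    have n3 : ∀ᶠ s in nhds t, Y s (pt S β s - c) + Y s (pt S β (s - β) - c) ≠ 0 := by
      apply hg.continuousAt.eventually_ne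
      rw [ht1, ht2, gX t]
      have : R * sin (φ - t) ≠ 0 := mul_ne_zero hR0 (hzn t htI)
      intro e; apply this; linarith
    filter_upwards [n1, n2, n3] with s h1 h2 h3
    have e : Y s (pt S β (s - β) - c) = Y s (pt S β s - c) := by
      rcases sq_eq_sq_iff_eq_or_eq_neg.mp (sq_eq s) with e | e
      · exact e
      · exfalso; apply h3; rw [e]; ring
    obtain ⟨d1, d2⟩ := dich s e
    have d3 : pt S β s = pt S β t := by
      apply pt_eq_pt hc hne hβ d2 _ h2
      rw [ht1]; exact hvS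
    exact ⟨h1, by rw [d3, ht1], by rw [d1, d3, ht1]⟩
  have hsubI : Ioo z (z + π) ⊆ u := by
    apply isPreconnected_Ioo.subset_of_closure_inter_subset huo
    · exact ⟨τ, hz, hz, rfl, hvv⟩
    · rintro t ⟨ht1, ht2⟩
      have : t ∈ {t : ℝ | pt S β t = v ∧ pt S β (t - β) = v} := by
        apply closure_minimal _ hcl ht1
        rintro s ⟨_, h⟩; exact h
      exact ⟨ht2, this⟩
  have hIcc : Icc z (z + π) ⊆ {t : ℝ | pt S β t = v ∧ pt S β (t - β) = v} := by
    rw [← closure_Ioo (by linarith [Real.pi_pos] : z ≠ z + π)]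
    apply closure_minimal _ hcl
    intro t ht; exact (hsubI ht).2
  have hp := Real.pi_pos
  have e1 := (hIcc (left_mem_Icc.mpr (by linarith))).1
  have e2 := (hIcc (right_mem_Icc.mpr (by linarith))).1
  apply hns
  apply subsingleton_of hc (s := z) (r := z + β) (v := v)
  · rw [← e1]; exact X_pt S β z
  · rw [← e2]; exact X_pt S β _
  · rw [← e1]; exact X_pt' S hβ z
  · rw [← e2, show z + β + π = z + π + β by ring]; exact X_pt' S hβ _
  · rw [show z + β - z = β by ring]; exact hsin.ne'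


end circle

/-- The functional relation satisfied by the support function. -/
structure Rel (F q : ℝ → ℝ) (R β : ℝ) : Prop where
  sq : ∀ t, F t ^ 2 + q t ^ 2 = R ^ 2
  nn : ∀ t, 0 ≤ q t
  r1 : ∀ t, F (t + β) = F t * cos β + q t * sin β
  r2 : ∀ t, q (t + β) = F t * sin β - q t * cos β

lemma rel_of {S : Set Plane} (hc : IsCompact S) (hne : S.Nonempty) (hns : ¬ S.Subsingleton)
    {β : ℝ} (hβ : β ∈ Ioo 0 π) {c : Plane} {R : ℝ}
    (hsub : isoptic S (π - β) ⊆ Metric.sphere c R) :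
    Rel (fun t => h S t - X t c) (fun t => Y t (pt S β t - c)) R β := by
  refine ⟨fun t => ?_, fun t => (q_spec hc hne hns hβ hsub t).1, fun t => ?_, fun t => ?_⟩
  · have := pt_mem_sphere hc hne hns hβ hsub t
    rw [Metric.mem_sphere, dist_eq_norm] at this
    rw [← this, ← XY_sq t, X_sub, X_pt]
  · rw [← X_pt' S hβ t, ← X_sub, X_add, X_sub, X_pt]
  · have e := (q_spec hc hne hns hβ hsub (t + β)).2
    rw [add_sub_cancel_right] at e
    change Y (t + β) (pt S β (t + β) - c)
      = (h S t - X t c) * sin β - Y t (pt S β t - c) * cos β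
    rw [Y_add, X_sub t, X_pt] at e
    linarith

lemma Rel.ang {F q : ℝ → ℝ} {R β : ℝ} (H : Rel F q R β) (hR : 0 < R) (hβ : β ∈ Ioo 0 π) (t : ℝ) :
    ∃ a ∈ Icc 0 β, F t = R * cos a ∧ F (t + β) = R * cos (β - a) := by
  have h1 : F t ^ 2 ≤ R ^ 2 := by nlinarith [H.sq t, sq_nonneg (q t)]
  have h2 := abs_le_of_sq_le_sq' h1 hR.le
  have e1 : R * cos (arccos (F t / R)) = F t := by
    rw [Real.cos_arccos]
    · field_simp
    · rw [le_div_iff₀ hR]; linarith [h2.1]
    · rw [div_le_iff₀ hR]; linarith [h2.2]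
  set a := arccos (F t / R) with ha
  have a0 : 0 ≤ a := Real.arccos_nonneg _
  have a1 : a ≤ π := Real.arccos_le_pi _
  have e2 : q t = R * sin a := by
    have s0 : 0 ≤ sin a := Real.sin_nonneg_of_nonneg_of_le_pi a0 a1
    have : q t ^ 2 = (R * sin a) ^ 2 := by
      have := H.sq t
      rw [← e1] at this
      have s := Real.sin_sq_add_cos_sq a
      linear_combination this - R ^ 2 * s
    have h3 := H.nn t
    exact (pow_left_inj₀ h3 (by positivity) two_ne_zero).mp this
  have e3 : F (t + β) = R * cos (β - a) := by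
    rw [H.r1, ← e1, e2, Real.cos_sub]; ring
  have e4 : q (t + β) = R * sin (β - a) := by
    rw [H.r2, ← e1, e2, Real.sin_sub]; ring
  refine ⟨a, ⟨a0, ?_⟩, e1.symm, e3⟩
  by_contra hlt
  rw [not_le] at hlt
  have h5 := H.nn (t + β)
  rw [e4] at h5
  have : 0 < sin (a - β) := Real.sin_pos_of_mem_Ioo ⟨by linarith, by linarith [hβ.1]⟩
  have e5 : sin (β - a) = - sin (a - β) := by rw [← Real.sin_neg]; ring_nf
  rw [e5] at h5
  nlinarith

lemma Rel.period {F q : ℝ → ℝ} {R β : ℝ} (H : Rel F q R β) (t : ℝ) : F (t + 2 * β) = F t := by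
  have := H.r1 (t + β)
  rw [show t + β + β = t + 2 * β by ring, H.r1, H.r2] at this
  rw [this]
  have s := Real.sin_sq_add_cos_sq β
  linear_combination F t * s

lemma cos_half_pos {β : ℝ} (hβ : β ∈ Ioo 0 π) : 0 < cos (β / 2) :=
  Real.cos_pos_of_mem_Ioo ⟨by linarith [hβ.1, Real.pi_pos], by linarith [hβ.2]⟩

lemma sin_half_pos {β : ℝ} (hβ : β ∈ Ioo 0 π) : 0 < sin (β / 2) :=
  Real.sin_pos_of_mem_Ioo ⟨by linarith [hβ.1, Real.pi_pos], by linarith [hβ.2, hβ.1]⟩

lemma Rel.above {F q : ℝ → ℝ} {R β : ℝ} (H : Rel F q R β) (hR : 0 < R) (hβ : β ∈ Ioo 0 π) {t : ℝ}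
    (ht : R * cos (β / 2) ≤ F t) : F (t + β) ≤ R * cos (β / 2) := by
  obtain ⟨a, ⟨a0, a1⟩, e1, e2⟩ := H.ang hR hβ t
  rw [e1] at ht; rw [e2]
  have ht' := le_of_mul_le_mul_left ht hR
  have : a ≤ β / 2 := by
    by_contra h; rw [not_le] at h
    have := Real.cos_lt_cos_of_nonneg_of_le_pi (by linarith [hβ.1]) (by linarith [hβ.2]) h
    linarith
  apply mul_le_mul_of_nonneg_left _ hR.le
  exact Real.cos_le_cos_of_nonneg_of_le_pi (by linarith [hβ.1]) (by linarith [hβ.2]) (by linarith)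

lemma Rel.below {F q : ℝ → ℝ} {R β : ℝ} (H : Rel F q R β) (hR : 0 < R) (hβ : β ∈ Ioo 0 π) {t : ℝ}
    (ht : F t < R * cos (β / 2)) : R * cos (β / 2) < F (t + β) := by
  obtain ⟨a, ⟨a0, a1⟩, e1, e2⟩ := H.ang hR hβ t
  rw [e1] at ht; rw [e2]
  have ht' := lt_of_mul_lt_mul_left ht hR.le
  have : β / 2 < a := by
    by_contra h; rw [not_lt] at h
    have := Real.cos_le_cos_of_nonneg_of_le_pi a0 (by linarith [hβ.2]) h
    linarith
  apply mul_lt_mul_of_pos_left _ hR
  exact Real.cos_lt_cos_of_nonneg_of_le_pi (by linarith) (by linarith [hβ.2, hβ.1]) (by linarith)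

lemma Rel.exists_mid {F q : ℝ → ℝ} {R β : ℝ} (H : Rel F q R β) (hR : 0 < R) (hβ : β ∈ Ioo 0 π)
    (hF : Continuous F) : ∃ t, F t = R * cos (β / 2) := by
  obtain ⟨s, hs⟩ : ∃ s, R * cos (β / 2) ≤ F s := by
    rcases le_or_gt (R * cos (β / 2)) (F 0) with h | h
    · exact ⟨0, h⟩
    · exact ⟨0 + β, (H.below hR hβ h).le⟩
  have hs2 := H.above hR hβ hs
  obtain ⟨t, -, ht⟩ := intermediate_value_Icc' (by linarith [hβ.1] : s ≤ s + β)
    hF.continuousOn ⟨hs2, hs⟩
  exact ⟨t, ht⟩

lemma mid_le {F q₁ q₂ : ℝ → ℝ} {R₁ R₂ β₁ β₂ : ℝ} (hF : Continuous F)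
    (hper : ∀ t, F (t + 2 * π) = F t) (hR₁ : 0 < R₁) (hR₂ : 0 < R₂) (hβ₁ : β₁ ∈ Ioo 0 π)
    (hβ₂ : β₂ ∈ Ioo 0 π) (H₁ : Rel F q₁ R₁ β₁) (H₂ : Rel F q₂ R₂ β₂) :
    R₂ * cos (β₂ / 2) ≤ R₁ * cos (β₁ / 2) := by
  by_contra hlt
  rw [not_le] at hlt
  obtain ⟨t₀, ht₀⟩ := H₁.exists_mid hR₁ hβ₁ hF
  have step : ∀ t, R₁ * cos (β₁ / 2) ≤ F t → R₂ * cos (β₂ / 2) < F (t + (β₁ + β₂)) := by
    intro t ht
    have := H₁.above hR₁ hβ₁ ht
    have := H₂.below hR₂ hβ₂ (lt_of_le_of_lt this hlt)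
    rwa [add_assoc] at this
  have ind : ∀ n : ℕ, R₂ * cos (β₂ / 2) < F (t₀ + ((n : ℝ) + 1) * (β₁ + β₂)) := by
    intro n
    induction n with
    | zero => simpa using step t₀ ht₀.ge
    | succ n ih =>
      have := step _ (hlt.trans ih).le
      rw [show t₀ + ((n : ℝ) + 1) * (β₁ + β₂) + (β₁ + β₂)
        = t₀ + (((n + 1 : ℕ) : ℝ) + 1) * (β₁ + β₂) by push_cast; ring] at this
      exact this
  have hnear : ∀ᶠ s in nhds t₀, F s < R₂ * cos (β₂ / 2) := by
    apply hF.continuousAt.eventually_lt continuousAt_const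
    rw [ht₀]; exact hlt
  rw [Metric.eventually_nhds_iff] at hnear
  obtain ⟨ε, hε, hball⟩ := hnear
  have hp := Real.pi_pos
  obtain ⟨N, hN⟩ := exists_nat_gt (2 * π / ε)
  have hN0 : 0 < N := by
    have : 0 < 2 * π / ε := by positivity
    have : (0 : ℝ) < N := this.trans hN
    exact_mod_cast this
  obtain ⟨k, hk0, -, hk⟩ := Real.exists_nat_abs_mul_sub_round_le ((β₁ + β₂) / (2 * π)) hN0
  set m := round ((k : ℝ) * ((β₁ + β₂) / (2 * π))) with hm
  have hdist : |(k : ℝ) * (β₁ + β₂) - m * (2 * π)| < ε := by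
    have e : (k : ℝ) * (β₁ + β₂) - m * (2 * π)
        = ((k : ℝ) * ((β₁ + β₂) / (2 * π)) - m) * (2 * π) := by field_simp
    rw [e, abs_mul, abs_of_pos (by positivity : (0 : ℝ) < 2 * π)]
    have h1 : |(k : ℝ) * ((β₁ + β₂) / (2 * π)) - m| * (2 * π) ≤ 1 / ((N : ℝ) + 1) * (2 * π) := by
      apply mul_le_mul_of_nonneg_right hk (by positivity)
    have h2 : 1 / ((N : ℝ) + 1) * (2 * π) < ε := by
      rw [div_lt_iff₀ hε] at hN
      rw [one_div, inv_mul_lt_iff₀ (by positivity)]
      nlinarith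
    linarith
  have hper' : ∀ (m : ℤ) (t : ℝ), F (t - m * (2 * π)) = F t := by
    intro m t
    have hP : Function.Periodic F (2 * π) := hper
    have := hP.sub_zsmul_eq m (x := t)
    rwa [zsmul_eq_mul] at this
  have h1 : F (t₀ + k * (β₁ + β₂) - m * (2 * π)) < R₂ * cos (β₂ / 2) := by
    apply hball
    rw [Real.dist_eq, show t₀ + k * (β₁ + β₂) - m * (2 * π) - t₀
      = (k : ℝ) * (β₁ + β₂) - m * (2 * π) by ring]
    exact hdist
  rw [hper'] at h1
  obtain ⟨n, rfl⟩ := Nat.exists_eq_succ_of_ne_zero hk0.ne'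
  have h2 := ind n
  rw [show ((n.succ : ℕ) : ℝ) = (n : ℝ) + 1 by push_cast; ring] at h1
  linarith

lemma Rel.min_of_max {F q : ℝ → ℝ} {R β : ℝ} (H : Rel F q R β) (hR : 0 < R) (hβ : β ∈ Ioo 0 π)
    {s : ℝ} (hs : ∀ t, F t ≤ F s) (t : ℝ) : F (s + β) ≤ F t := by
  obtain ⟨a, ⟨a0, a1⟩, e1, e2⟩ := H.ang hR hβ s
  obtain ⟨b, ⟨b0, b1⟩, e3, e4⟩ := H.ang hR hβ (t - β)
  rw [sub_add_cancel] at e4
  have h1 := hs (t - β)
  rw [e1, e3] at h1
  have h2 := le_of_mul_le_mul_left h1 hR
  have h3 : a ≤ b := by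
    by_contra h; rw [not_le] at h
    have := Real.cos_lt_cos_of_nonneg_of_le_pi b0 (by linarith [hβ.2]) h
    linarith
  rw [e2, e4]
  apply mul_le_mul_of_nonneg_left _ hR.le
  exact Real.cos_le_cos_of_nonneg_of_le_pi (by linarith) (by linarith [hβ.2]) (by linarith)

lemma const_of_two {F q₁ q₂ : ℝ → ℝ} {R₁ R₂ β₁ β₂ : ℝ} (hF : Continuous F)
    (hper : ∀ t, F (t + 2 * π) = F t) (hR₁ : 0 < R₁) (hR₂ : 0 < R₂) (hβ₁ : β₁ ∈ Ioo 0 π)
    (hβ₂ : β₂ ∈ Ioo 0 π) (hne : β₁ ≠ β₂) (H₁ : Rel F q₁ R₁ β₁) (H₂ : Rel F q₂ R₂ β₂) :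
    ∃ y, 0 < y ∧ ∀ t, F t = y := by
  have hy : R₁ * cos (β₁ / 2) = R₂ * cos (β₂ / 2) :=
    le_antisymm (mid_le hF hper hR₂ hR₁ hβ₂ hβ₁ H₂ H₁) (mid_le hF hper hR₁ hR₂ hβ₁ hβ₂ H₁ H₂)
  have hc1 := cos_half_pos hβ₁
  have hc2 := cos_half_pos hβ₂
  have hs1 := sin_half_pos hβ₁
  have hs2 := sin_half_pos hβ₂
  have hp := Real.pi_pos
  have hpos : 0 < R₁ * cos (β₁ / 2) := by positivity
  -- a point where `F` is maximal
  obtain ⟨s, hs⟩ : ∃ s, ∀ t, F t ≤ F s := by
    obtain ⟨s, -, hs⟩ := isCompact_Icc.exists_isMaxOn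
      (nonempty_Icc.mpr (by positivity : (0 : ℝ) ≤ 2 * π)) hF.continuousOn
    refine ⟨s, fun t => ?_⟩
    have hP : Function.Periodic F (2 * π) := hper
    obtain ⟨t', ht', e⟩ := hP.exists_mem_Ico₀ (by positivity) t
    rw [e]; exact hs ⟨ht'.1, ht'.2.le⟩
  have hm : F (s + β₁) = F (s + β₂) :=
    le_antisymm (H₁.min_of_max hR₁ hβ₁ hs _) (H₂.min_of_max hR₂ hβ₂ hs _)
  have hmin : ∀ t, F (s + β₁) ≤ F t := H₁.min_of_max hR₁ hβ₁ hs
  obtain ⟨t₀, ht₀⟩ := H₁.exists_mid hR₁ hβ₁ hF
  have hM : R₁ * cos (β₁ / 2) ≤ F s := by rw [← ht₀]; exact hs t₀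
  obtain ⟨a, ⟨a0, a1⟩, ea, ea'⟩ := H₁.ang hR₁ hβ₁ s
  obtain ⟨b, ⟨b0, b1⟩, eb, eb'⟩ := H₂.ang hR₂ hβ₂ s
  have ha : a ≤ β₁ / 2 := by
    by_contra h; rw [not_le] at h
    have := Real.cos_lt_cos_of_nonneg_of_le_pi (by linarith [hβ₁.1]) (by linarith [hβ₁.2]) h
    rw [ea] at hM; have := le_of_mul_le_mul_left hM hR₁; linarith
  have hb : b ≤ β₂ / 2 := by
    by_contra h; rw [not_le] at h
    have := Real.cos_lt_cos_of_nonneg_of_le_pi (by linarith [hβ₂.1]) (by linarith [hβ₂.2]) h
    rw [hy, eb] at hM; have := le_of_mul_le_mul_left hM hR₂; linarith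
  -- sums and differences of the extreme values
  have s1 : F s + F (s + β₁) = 2 * (R₁ * cos (β₁ / 2)) * cos (β₁ / 2 - a) := by
    have e1 : cos a = cos (β₁ / 2 - (β₁ / 2 - a)) := by ring_nf
    have e2 : cos (β₁ - a) = cos (β₁ / 2 + (β₁ / 2 - a)) := by ring_nf
    rw [ea', ea, e1, e2, Real.cos_sub (β₁ / 2) (β₁ / 2 - a), Real.cos_add]; ring
  have d1 : F s - F (s + β₁) = 2 * (R₁ * sin (β₁ / 2)) * sin (β₁ / 2 - a) := by
    have e1 : cos a = cos (β₁ / 2 - (β₁ / 2 - a)) := by ring_nf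
    have e2 : cos (β₁ - a) = cos (β₁ / 2 + (β₁ / 2 - a)) := by ring_nf
    rw [ea', ea, e1, e2, Real.cos_sub (β₁ / 2) (β₁ / 2 - a), Real.cos_add]; ring
  have s2 : F s + F (s + β₂) = 2 * (R₂ * cos (β₂ / 2)) * cos (β₂ / 2 - b) := by
    have e1 : cos b = cos (β₂ / 2 - (β₂ / 2 - b)) := by ring_nf
    have e2 : cos (β₂ - b) = cos (β₂ / 2 + (β₂ / 2 - b)) := by ring_nf
    rw [eb', eb, e1, e2, Real.cos_sub (β₂ / 2) (β₂ / 2 - b), Real.cos_add]; ring
  have d2 : F s - F (s + β₂) = 2 * (R₂ * sin (β₂ / 2)) * sin (β₂ / 2 - b) := by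
    have e1 : cos b = cos (β₂ / 2 - (β₂ / 2 - b)) := by ring_nf
    have e2 : cos (β₂ - b) = cos (β₂ / 2 + (β₂ / 2 - b)) := by ring_nf
    rw [eb', eb, e1, e2, Real.cos_sub (β₂ / 2) (β₂ / 2 - b), Real.cos_add]; ring
  have hcos : cos (β₁ / 2 - a) = cos (β₂ / 2 - b) := by
    rw [hm, s2, ← hy] at s1
    have : 2 * (R₁ * cos (β₁ / 2)) ≠ 0 := by positivity
    exact (mul_left_cancel₀ this s1).symm
  have hBB : β₁ / 2 - a = β₂ / 2 - b := by
    apply Real.injOn_cos _ _ hcos
    · exact ⟨by linarith, by linarith [hβ₁.2]⟩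
    · exact ⟨by linarith, by linarith [hβ₂.2]⟩
  have hB0 : β₁ / 2 - a = 0 := by
    by_contra hB
    have hBpos : 0 < β₁ / 2 - a := lt_of_le_of_ne (by linarith) (Ne.symm hB)
    have hsB : 0 < sin (β₁ / 2 - a) :=
      Real.sin_pos_of_mem_Ioo ⟨hBpos, by linarith [hβ₁.2]⟩
    rw [hm, d2, ← hBB] at d1
    have e : R₂ * sin (β₂ / 2) = R₁ * sin (β₁ / 2) := by
      have := mul_right_cancel₀ hsB.ne' d1; linarith
    have hz : sin (β₁ / 2 - β₂ / 2) = 0 := by
      rw [Real.sin_sub]
      have : R₁ * R₂ * (sin (β₁ / 2) * cos (β₂ / 2) - cos (β₁ / 2) * sin (β₂ / 2)) = 0 := by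
        linear_combination (-(R₂ * cos (β₂ / 2))) * e - (R₂ * sin (β₂ / 2)) * hy
      rcases mul_eq_zero.mp this with h | h
      · exfalso; have : 0 < R₁ * R₂ := by positivity
        linarith
      · exact h
    rcases lt_trichotomy β₁ β₂ with h | h | h
    · have : 0 < sin (β₂ / 2 - β₁ / 2) :=
        Real.sin_pos_of_mem_Ioo ⟨by linarith, by linarith [hβ₂.2, hβ₁.1]⟩
      rw [show β₂ / 2 - β₁ / 2 = - (β₁ / 2 - β₂ / 2) by ring, Real.sin_neg, hz] at this
      simp at this
    · exact hne h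
    · have : 0 < sin (β₁ / 2 - β₂ / 2) :=
        Real.sin_pos_of_mem_Ioo ⟨by linarith, by linarith [hβ₁.2, hβ₂.1]⟩
      linarith
  rw [hB0, Real.cos_zero] at s1
  rw [hB0, Real.sin_zero] at d1
  refine ⟨R₁ * cos (β₁ / 2), hpos, fun t => ?_⟩
  have := hs t
  have := hmin t
  linarith


/-- the two centres coincide -/
lemma centre_eq {H : ℝ → ℝ} {c₁ c₂ : Plane} {β₁ β₂ : ℝ} (hβ₁ : β₁ ∈ Ioo 0 π) (hβ₂ : β₂ ∈ Ioo 0 π)
    (h1 : ∀ t, H (t + 2 * β₁) - X (t + 2 * β₁) c₁ = H t - X t c₁)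
    (h2 : ∀ t, H (t + 2 * β₂) - X (t + 2 * β₂) c₂ = H t - X t c₂) : c₁ = c₂ := by
  have hs1 : 0 < sin β₁ := Real.sin_pos_of_mem_Ioo hβ₁
  have hs2 : 0 < sin β₂ := Real.sin_pos_of_mem_Ioo hβ₂
  have key : ∀ w, X w (c₂ - c₁) = 0 := by
    intro w
    set t := w - β₁ - β₂ with ht
    have a1 := h1 t
    have a2 := h1 (t + 2 * β₂)
    have b1 := h2 t
    have b2 := h2 (t + 2 * β₁)
    rw [show t + 2 * β₂ + 2 * β₁ = w + (β₁ + β₂) by rw [ht]; ring] at a2
    rw [show t + 2 * β₁ + 2 * β₂ = w + (β₁ + β₂) by rw [ht]; ring] at b2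
    rw [show t + 2 * β₁ = w + (β₁ - β₂) by rw [ht]; ring] at a1 b2
    rw [show t + 2 * β₂ = w + -(β₁ - β₂) by rw [ht]; ring] at a2 b1
    rw [show t = w + -(β₁ + β₂) by rw [ht]; ring] at a1 b1
    have e : X (w + (β₁ + β₂)) (c₂ - c₁) - X (w + (β₁ - β₂)) (c₂ - c₁)
        - X (w + -(β₁ - β₂)) (c₂ - c₁) + X (w + -(β₁ + β₂)) (c₂ - c₁) = 0 := by
      simp only [X_sub]; linarith
    simp only [X_add, Real.cos_neg, Real.sin_neg] at e
    have e2 : X w (c₂ - c₁) * (sin β₁ * sin β₂) = 0 := by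
      rw [Real.cos_add, Real.cos_sub] at e
      linarith
    rcases mul_eq_zero.mp e2 with h | h
    · exact h
    · exfalso; have : 0 < sin β₁ * sin β₂ := by positivity
      linarith
  have : c₂ - c₁ = 0 := by
    apply eq_of_two (s := 0) (r := π / 2)
    · rw [key]; simp [X]
    · rw [key]; simp [X]
    · simp
  exact (sub_eq_zero.mp this).symm

lemma X_le_norm (t : ℝ) (z : Plane) : X t z ≤ ‖z‖ := by
  have := XY_sq t z
  have h : X t z ^ 2 ≤ ‖z‖ ^ 2 := by nlinarith [sq_nonneg (Y t z)]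
  exact (abs_le_of_sq_le_sq' h (norm_nonneg z)).2

/-- a compact convex set with support function `y` relative to `c` is the disc of radius `y` -/
lemma eq_ball {S : Set Plane} (hc : IsCompact S) (hne : S.Nonempty) (hconv : Convex ℝ S)
    {c : Plane} {y : ℝ} (hy : ∀ t, h S t - X t c = y) : S = Metric.closedBall c y := by
  apply Subset.antisymm
  · intro x hx
    rw [Metric.mem_closedBall, dist_eq_norm]
    obtain ⟨s, -, e0, e1⟩ := polar (x - c) 0
    have : X s (x - c) = ‖x - c‖ := by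
      rw [X, e0, e1]
      have := Real.sin_sq_add_cos_sq s
      linear_combination ‖x - c‖ * this
    rw [← this, X_sub, ← hy s]
    linarith [X_le_h hc hx s]
  · intro x hx
    rw [Metric.mem_closedBall, dist_eq_norm] at hx
    by_contra hxS
    obtain ⟨f, u, hf, hu⟩ := geometric_hahn_banach_closed_point hconv hc.isClosed hxS
    set w : Plane := (InnerProductSpace.toDual ℝ Plane).symm f with hw
    have hfw : ∀ a : Plane, f a = inner ℝ w a := by
      intro a; rw [hw, InnerProductSpace.toDual_symm_apply]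
    obtain ⟨s, -, e0, e1⟩ := polar w 0
    have hfX : ∀ a : Plane, f a = ‖w‖ * X s a := by
      intro a
      rw [hfw, inner_eq, X]
      conv_lhs => rw [e0, e1]
      ring
    obtain ⟨a, ha, ea⟩ := exists_h hc hne s
    have l1 := hf a ha
    rw [hfX, ea] at l1
    rw [hfX] at hu
    have l2 : X s x ≤ h S s := by
      have := X_le_norm s (x - c)
      rw [X_sub] at this
      have := hy s
      linarith
    have := mul_le_mul_of_nonneg_left l2 (norm_nonneg w)
    linarith

/-- isoptics of a disc -/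
lemma isoptic_ball (c : Plane) {r : ℝ} (hr : 0 < r) {α : ℝ} (hα : α ∈ Ioo 0 π) :
    isoptic (Metric.closedBall c r) α = Metric.sphere c (r / sin (α / 2)) := by
  obtain ⟨hα0, hα1⟩ := hα
  have hsin : 0 < sin (α / 2) := Real.sin_pos_of_mem_Ioo ⟨by linarith, by linarith⟩
  have hsin1 : sin (α / 2) < 1 := by
    have : sin (α / 2) < sin (π / 2) :=
      Real.sin_lt_sin_of_lt_of_le_pi_div_two (by linarith) le_rfl (by linarith)
    rwa [Real.sin_pi_div_two] at this
  have sight : ∀ P : Plane, r < ‖P - c‖ →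
      sightAngle (Metric.closedBall c r) P = π - 2 * arccos (r / ‖P - c‖) := by
    intro P hP
    have hρ : 0 < ‖P - c‖ := hr.trans hP
    have hq0 : 0 < r / ‖P - c‖ := by positivity
    have hq1 : r / ‖P - c‖ < 1 := by rwa [div_lt_one hρ]
    have hb0 : 0 < arccos (r / ‖P - c‖) := Real.arccos_pos.mpr hq1
    have hb1 : arccos (r / ‖P - c‖) < π / 2 := Real.arccos_lt_pi_div_two.mpr hq0
    obtain ⟨φ, -, e0, e1⟩ := polar (P - c) 0
    have hcosb : ‖P - c‖ * cos (arccos (r / ‖P - c‖)) = r := by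
      rw [Real.cos_arccos (by linarith) hq1.le]; field_simp
    have hX : ∀ t, X t P = X t c + ‖P - c‖ * cos (φ - t) := by
      intro t
      have : X t (P - c) = ‖P - c‖ * cos (φ - t) := by
        rw [X]
        conv_lhs => rw [e0, e1]
        rw [Real.cos_sub]; ring
      rw [X_sub] at this; linarith
    have hmem : ∀ x ∈ Metric.closedBall c r, ∀ t, X t x ≤ X t c + r := by
      intro x hx t
      rw [Metric.mem_closedBall, dist_eq_norm] at hx
      have := X_le_norm t (x - c)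
      rw [X_sub] at this; linarith
    have hatt : ∀ t, ∃ x ∈ Metric.closedBall c r, X t x = X t c + r := by
      intro t
      refine ⟨c + !₂[r * cos t, r * sin t], ?_, ?_⟩
      · rw [Metric.mem_closedBall, dist_eq_norm, add_sub_cancel_left]
        have : ‖(!₂[r * cos t, r * sin t] : Plane)‖ ^ 2 = r ^ 2 := by
          rw [norm_sq_eq]
          simp only [Matrix.cons_val_zero, Matrix.cons_val_one]
          have := Real.sin_sq_add_cos_sq t
          linear_combination r ^ 2 * this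
        exact ((pow_left_inj₀ (norm_nonneg _) hr.le two_ne_zero).mp this).le
      · simp only [X, PiLp.add_apply, Matrix.cons_val_zero, Matrix.cons_val_one]
        have := Real.sin_sq_add_cos_sq t
        linear_combination r * this
    have hX1 : X (φ - arccos (r / ‖P - c‖)) P = X (φ - arccos (r / ‖P - c‖)) c + r := by
      rw [hX, sub_sub_cancel, hcosb]
    have hX2 : X (φ - arccos (r / ‖P - c‖) + 2 * arccos (r / ‖P - c‖)) P
        = X (φ - arccos (r / ‖P - c‖) + 2 * arccos (r / ‖P - c‖)) c + r := by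
      rw [hX, show φ - (φ - arccos (r / ‖P - c‖) + 2 * arccos (r / ‖P - c‖))
        = - arccos (r / ‖P - c‖) by ring, Real.cos_neg, hcosb]
    refine sight_eq (t := φ - arccos (r / ‖P - c‖)) ?_ ?_ ?_ ?_ ?_ ?_
    · rw [Metric.mem_closedBall, dist_eq_norm]; linarith
    · constructor <;> linarith
    · intro x hx; rw [hX1]; exact hmem x hx _
    · rw [hX1]; exact hatt _
    · intro x hx; rw [hX2]; exact hmem x hx _
    · rw [hX2]; exact hatt _
  ext P
  rw [Metric.mem_sphere, dist_eq_norm]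
  constructor
  · rintro ⟨hP, hs⟩
    rw [Metric.mem_closedBall, dist_eq_norm, not_le] at hP
    rw [sight P hP] at hs
    have hρ : 0 < ‖P - c‖ := hr.trans hP
    have hq0 : 0 < r / ‖P - c‖ := by positivity
    have hq1 : r / ‖P - c‖ < 1 := by rwa [div_lt_one hρ]
    have e : arccos (r / ‖P - c‖) = π / 2 - α / 2 := by linarith
    have e2 : r / ‖P - c‖ = sin (α / 2) := by
      rw [← Real.cos_pi_div_two_sub, ← e, Real.cos_arccos (by linarith) hq1.le]
    rw [← e2]; field_simp
  · intro hP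
    have hlt : r < ‖P - c‖ := by
      rw [hP, lt_div_iff₀ hsin]; nlinarith
    refine ⟨?_, ?_⟩
    · rw [Metric.mem_closedBall, dist_eq_norm, not_le]; exact hlt
    · rw [sight P hlt, hP, div_div_cancel₀ hr.ne', ← Real.cos_pi_div_two_sub,
        Real.arccos_cos (by linarith) (by linarith)]
      ring

lemma isoptic_of_subsingleton {S : Set Plane} (hS : S.Subsingleton) {α : ℝ} (hα : 0 < α) :
    isoptic S α = ∅ := by
  rw [eq_empty_iff_forall_notMem]
  rintro P ⟨hP, hs⟩
  rcases hS.eq_empty_or_singleton with rfl | ⟨v, rfl⟩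
  · have : sightAngle ∅ P = 0 := by simp [sightAngle]
    linarith
  · have hv : v - P ≠ 0 := by
      intro e; apply hP; rw [mem_singleton_iff]; exact (sub_eq_zero.mp e).symm
    have : sightAngle {v} P = 0 := by
      have e : {θ : ℝ | ∃ x ∈ ({v} : Set Plane), ∃ y ∈ ({v} : Set Plane),
          θ = EuclideanGeometry.angle x P y} = {0} := by
        ext θ
        simp only [mem_singleton_iff, exists_eq_left, mem_ofPred_eq]
        rw [EuclideanGeometry.angle, vsub_eq_sub, InnerProductGeometry.angle_self hv]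
      rw [sightAngle, e, csSup_singleton]
    linarith

lemma not_isCircle_empty : ¬ IsCircle (∅ : Set Plane) := by
  rintro ⟨c, R, hR, e⟩
  have : (Metric.sphere c R).Nonempty := NormedSpace.sphere_nonempty.mpr hR.le
  rw [← e] at this; simp at this

lemma IsCircle.closure {C : Set Plane} (hC : IsCircle C) : IsCircle (closure C) := by
  obtain ⟨c, R, hR, e⟩ := hC
  refine ⟨c, R, hR, ?_⟩
  rw [e, Metric.isClosed_sphere.closure_eq]

/-- main step -/
lemma main {S : Set Plane} (hc : IsCompact S) (hconv : Convex ℝ S) {α₁ α₂ : ℝ}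
    (h1 : α₁ ∈ Ioo 0 π) (h2 : α₂ ∈ Ioo 0 π) (h12 : α₁ ≠ α₂)
    (C1 : IsCircle (closure (isoptic S α₁))) (C2 : IsCircle (closure (isoptic S α₂))) :
    ∃ c r, 0 < r ∧ S = Metric.closedBall c r := by
  have hns : ¬ S.Subsingleton := by
    intro hS
    rw [isoptic_of_subsingleton hS h1.1, closure_empty] at C1
    exact not_isCircle_empty C1
  have hne : S.Nonempty := by
    rw [nonempty_iff_ne_empty]; rintro rfl; exact hns subsingleton_empty
  obtain ⟨c₁, R₁, hR₁, e1⟩ := C1
  obtain ⟨c₂, R₂, hR₂, e2⟩ := C2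
  have hβ₁ : π - α₁ ∈ Ioo 0 π := ⟨by linarith [h1.2], by linarith [h1.1]⟩
  have hβ₂ : π - α₂ ∈ Ioo 0 π := ⟨by linarith [h2.2], by linarith [h2.1]⟩
  have s1 : isoptic S (π - (π - α₁)) ⊆ Metric.sphere c₁ R₁ := by
    rw [sub_sub_cancel, ← e1]; exact subset_closure
  have s2 : isoptic S (π - (π - α₂)) ⊆ Metric.sphere c₂ R₂ := by
    rw [sub_sub_cancel, ← e2]; exact subset_closure
  have r1 := rel_of hc hne hns hβ₁ s1
  have r2 := rel_of hc hne hns hβ₂ s2
  have hcc : c₁ = c₂ := centre_eq hβ₁ hβ₂ r1.period r2.period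
  subst hcc
  have hF : Continuous (fun t => h S t - X t c₁) :=
    (h_cont hc).sub (X_cont2.comp (continuous_id.prodMk continuous_const))
  obtain ⟨y, hy, hy'⟩ := const_of_two hF (fun t => by simp only [h_per, X_per]) hR₁ hR₂ hβ₁ hβ₂
    (fun e => h12 (by linarith)) r1 r2
  exact ⟨c₁, y, hy, eq_ball hc hne hconv hy'⟩


lemma main_set {S : Set Plane} (hc : IsCompact S) (hconv : Convex ℝ S)
    (hn : ¬ {α : ℝ | α ∈ Ioo 0 π ∧ IsCircle (closure (isoptic S α))}.Subsingleton) :
    (∃ c : Plane, ∃ r : ℝ, 0 < r ∧ S = Metric.closedBall c r) ∧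
      ∀ α ∈ Ioo 0 π, IsCircle (isoptic S α) := by
  rw [not_subsingleton_iff] at hn
  obtain ⟨α₁, ⟨h1, C1⟩, α₂, ⟨h2, C2⟩, h12⟩ := hn
  obtain ⟨c, r, hr, e⟩ := main hc hconv h1 h2 h12 C1 C2
  refine ⟨⟨c, r, hr, e⟩, fun α hα => ?_⟩
  rw [e, isoptic_ball c hr hα]
  have : 0 < sin (α / 2) :=
    Real.sin_pos_of_mem_Ioo ⟨by linarith [hα.1], by linarith [hα.2, Real.pi_pos]⟩
  exact ⟨c, _, by positivity, rfl⟩

/-- **Compact convex sets with more than one circular isoptic are discs.**

Let `S` be a compact convex subset of the Euclidean plane. Either at most one angle `α ∈ (0, π)`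
has a circular isoptic (even if one only asks that the closure of the isoptic be a circle, which
allows the isoptic to pass through corners of `S`), or `S` is a closed disc of positive radius, and
then the isoptic at every `α ∈ (0, π)` is a circle. In particular no compact convex set has
exactly two circular isoptics, in either reading. -/
theorem result :
    (∀ S : Set Plane, IsCompact S → Convex ℝ S →
      {α : ℝ | α ∈ Ioo 0 π ∧ IsCircle (closure (isoptic S α))}.Subsingleton ∨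
        ((∃ c : Plane, ∃ r : ℝ, 0 < r ∧ S = Metric.closedBall c r) ∧
          ∀ α ∈ Ioo 0 π, IsCircle (isoptic S α))) ∧
    (¬ ∃ S : Set Plane, IsCompact S ∧ Convex ℝ S ∧
        {α : ℝ | α ∈ Ioo 0 π ∧ IsCircle (isoptic S α)}.encard = 2) ∧
    (¬ ∃ S : Set Plane, IsCompact S ∧ Convex ℝ S ∧
        {α : ℝ | α ∈ Ioo 0 π ∧ IsCircle (closure (isoptic S α))}.encard = 2) := by
  have inf : ∀ T : Set ℝ, Ioo 0 π ⊆ T → T.encard ≠ 2 := by
    intro T hT h
    have hfin : T.Finite := by
      apply finite_of_encard_eq_coe (k := 2); rw [h]; rfl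
    exact Ioo_infinite Real.pi_pos (hfin.subset hT)
  have nonsub : ∀ T : Set ℝ, T.encard = 2 → ¬ T.Subsingleton := by
    intro T h hs
    have := encard_le_one_iff_subsingleton.mpr hs
    rw [h] at this
    exact absurd this (by norm_num)
  refine ⟨fun S hc hconv => ?_, ?_, ?_⟩
  · by_cases hn : {α : ℝ | α ∈ Ioo 0 π ∧ IsCircle (closure (isoptic S α))}.Subsingleton
    · exact Or.inl hn
    · exact Or.inr (main_set hc hconv hn)
  · rintro ⟨S, hc, hconv, h2⟩
    have hn := nonsub _ h2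
    have hsub : {α : ℝ | α ∈ Ioo 0 π ∧ IsCircle (isoptic S α)} ⊆
        {α : ℝ | α ∈ Ioo 0 π ∧ IsCircle (closure (isoptic S α))} :=
      fun α hα => ⟨hα.1, hα.2.closure⟩
    have := (main_set hc hconv (fun h => hn (h.anti hsub))).2
    refine inf _ ?_ h2
    intro α hα
    exact ⟨hα, this α hα⟩
  · rintro ⟨S, hc, hconv, h2⟩
    have := (main_set hc hconv (nonsub _ h2)).2
    refine inf _ ?_ h2
    intro α hα
    exact ⟨hα, (this α hα).closure⟩

end Pool.Agent.Results.MP_08e0ef_gt.TwoCircularIsoptics
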